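import Pool.Agent.Run7.h619.PR.Iface
import Pool.Agent.Y504.CO.P2

/-!
# JET: coordinates of the tangent spaces, families and colours
-/

set_option autoImplicit false
set_option linter.unusedSectionVars false

open scoped Manifold ContDiff Topology
open Filter Set Metric

universe u v w

namespace Run7.h781.PR

open Pool.Agent.H718R2.G Pool.Agent.TH80.OMS Run7.h619.AA Pool.Agent.W564.SC Run7.h619.PR

section chart

variable {k : ℕ} {M : Type*} [TopologicalSpace M] [ChartedSpace (V k) M] [IsManifold (𝓡 k) ∞ M]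

/-- the derivative of a chart -/
noncomputable def Df (χ : OpenPartialHomeomorph M (V k)) (x : M) : V k →L[ℝ] V k :=
  mfderiv (𝓡 k) (𝓡 k) χ x

/-- the derivative of the inverse of a chart -/
noncomputable def Ds (χ : OpenPartialHomeomorph M (V k)) (u : V k) : V k →L[ℝ] V k :=
  mfderiv (𝓡 k) (𝓡 k) χ.symm u

variable {χ : OpenPartialHomeomorph M (V k)}

theorem hasDf (hχ : χ ∈ IsManifold.maximalAtlas (𝓡 k) ∞ M) {x : M} (hx : x ∈ χ.source) :
    HasMFDerivAt (𝓡 k) (𝓡 k) χ x (Df χ x) :=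
  (((contMDiffOn_of_mem_maximalAtlas hχ x hx).contMDiffAt
    (χ.open_source.mem_nhds hx)).mdifferentiableAt (by simp)).hasMFDerivAt

theorem hasDs (hχ : χ ∈ IsManifold.maximalAtlas (𝓡 k) ∞ M) {u : V k} (hu : u ∈ χ.target) :
    HasMFDerivAt (𝓡 k) (𝓡 k) χ.symm u (Ds χ u) :=
  (((contMDiffOn_symm_of_mem_maximalAtlas hχ u hu).contMDiffAt
    (χ.open_target.mem_nhds hu)).mdifferentiableAt (by simp)).hasMFDerivAt

theorem Ds_Df (hχ : χ ∈ IsManifold.maximalAtlas (𝓡 k) ∞ M) {x : M} (hx : x ∈ χ.source)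
    (v : V k) : Ds χ (χ x) (Df χ x v) = v := by
  have h1 := (hasDs hχ (χ.map_source hx)).comp x (hasDf hχ hx)
  have h2 : HasMFDerivAt (𝓡 k) (𝓡 k) (χ.symm ∘ χ) x
      (ContinuousLinearMap.id ℝ (TangentSpace (𝓡 k) x)) := by
    refine (hasMFDerivAt_id x).congr_of_eventuallyEq ?_
    filter_upwards [χ.open_source.mem_nhds hx] with y hy
    exact χ.left_inv hy
  have h3 := hasMFDerivAt_unique h1 h2
  exact DFunLike.congr_fun h3 v

theorem Df_Ds (hχ : χ ∈ IsManifold.maximalAtlas (𝓡 k) ∞ M) {u : V k} (hu : u ∈ χ.target)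
    (v : V k) : Df χ (χ.symm u) (Ds χ u v) = v := by
  have h1 := (hasDf hχ (χ.map_target hu)).comp u (hasDs hχ hu)
  have h2 : HasMFDerivAt (𝓡 k) (𝓡 k) (χ ∘ χ.symm) u
      (ContinuousLinearMap.id ℝ (TangentSpace (𝓡 k) u)) := by
    refine (hasMFDerivAt_id u).congr_of_eventuallyEq ?_
    filter_upwards [χ.open_target.mem_nhds hu] with y hy
    exact χ.right_inv hy
  have h3 := hasMFDerivAt_unique h1 h2
  exact DFunLike.congr_fun h3 v

/-- the coordinates of the tangent space given by a chart -/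
noncomputable def th (hχ : χ ∈ IsManifold.maximalAtlas (𝓡 k) ∞ M) {x : M} (hx : x ∈ χ.source) :
    V k ≃L[ℝ] V k :=
  ContinuousLinearEquiv.equivOfInverse (Df χ x) (Ds χ (χ x)) (Ds_Df hχ hx) (fun v => by
    have h := Df_Ds hχ (χ.map_source hx) v
    rwa [χ.left_inv hx] at h)

theorem th_apply (hχ : χ ∈ IsManifold.maximalAtlas (𝓡 k) ∞ M) {x : M} (hx : x ∈ χ.source)
    (v : V k) : th hχ hx v = Df χ x v := rfl

theorem cont_q (hχ : χ ∈ IsManifold.maximalAtlas (𝓡 k) ∞ M) {q : M → V k → ℝ}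
    (hq : IsNormOn q) :
    ContinuousOn (fun p : V k × V k => q (χ.symm p.1) (Ds χ p.1 p.2)) (χ.target ×ˢ univ) := by
  have h1 : ContMDiffOn (𝓡 k) (𝓡 k) ∞ χ.symm χ.target := contMDiffOn_symm_of_mem_maximalAtlas hχ
  have h2 := h1.continuousOn_tangentMapWithin (by simp) χ.open_target.uniqueMDiffOn
  have h3 : Continuous (fun p : V k × V k => (⟨p.1, p.2⟩ : TangentBundle (𝓡 k) (V k))) :=
    (tangentBundleModelSpaceHomeomorph (𝓡 k)).symm.continuous
  have h4 := h2.comp (h3.continuousOn (s := χ.target ×ˢ univ)) (fun p hp => hp.1)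
  have h5 : ContinuousOn (fun p : V k × V k =>
      (⟨χ.symm p.1, Ds χ p.1 p.2⟩ : TangentBundle (𝓡 k) M)) (χ.target ×ˢ univ) := by
    refine h4.congr fun p hp => ?_
    have h6 : mfderivWithin (𝓡 k) (𝓡 k) χ.symm χ.target p.1 = mfderiv (𝓡 k) (𝓡 k) χ.symm p.1 :=
      mfderivWithin_eq_mfderiv (χ.open_target.uniqueMDiffOn p.1 hp.1)
        (hasDs hχ hp.1).mdifferentiableAt
    show (⟨χ.symm p.1, Ds χ p.1 p.2⟩ : TangentBundle (𝓡 k) M) =
      ⟨χ.symm p.1, mfderivWithin (𝓡 k) (𝓡 k) χ.symm χ.target p.1 p.2⟩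
    rw [h6]
    rfl
  exact hq.cont.comp_continuousOn h5

theorem q_zero {q : M → V k → ℝ} (hq : IsNormOn q) (x : M) : q x 0 = 0 := by
  have h := hq.smul x 0 0
  rwa [smul_zero, abs_zero, zero_mul] at h

theorem comp_chart (hχ : χ ∈ IsManifold.maximalAtlas (𝓡 k) ∞ M)
    (hball : closedBall (0 : V k) 1 ⊆ χ.target) {q : M → V k → ℝ} (hq : IsNormOn q) :
    ∃ K : ℝ, 0 < K ∧ ∀ u ∈ closedBall (0 : V k) (1 / 8), ∀ w : V k,
      q (χ.symm u) (Ds χ u w) ≤ K * ‖w‖ ∧ ‖w‖ ≤ K * q (χ.symm u) (Ds χ u w) := by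
  rcases subsingleton_or_nontrivial (V k) with hs | hs
  · refine ⟨1, one_pos, fun u _ w => ?_⟩
    rw [Subsingleton.elim w 0, map_zero, q_zero hq, norm_zero]
    simp
  · have hsub : closedBall (0 : V k) (1 / 8) ⊆ χ.target :=
      (closedBall_subset_closedBall (by norm_num)).trans hball
    have hcp : IsCompact (closedBall (0 : V k) (1 / 8) ×ˢ sphere (0 : V k) 1) :=
      (isCompact_closedBall _ _).prod (isCompact_sphere _ _)
    have hne : (closedBall (0 : V k) (1 / 8) ×ˢ sphere (0 : V k) 1).Nonempty :=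
      (nonempty_closedBall.2 (by norm_num)).prod (NormedSpace.sphere_nonempty.2 zero_le_one)
    have hc : ContinuousOn (fun p : V k × V k => q (χ.symm p.1) (Ds χ p.1 p.2))
        (closedBall (0 : V k) (1 / 8) ×ˢ sphere (0 : V k) 1) :=
      (cont_q hχ hq).mono (prod_mono hsub (subset_univ _))
    obtain ⟨p0, hp0, hmin⟩ := hcp.exists_isMinOn hne hc
    obtain ⟨p1, hp1, hmax⟩ := hcp.exists_isMaxOn hne hc
    have hpos : 0 < q (χ.symm p0.1) (Ds χ p0.1 p0.2) := by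
      apply hq.pos
      intro h
      have h1 := Df_Ds hχ (hsub hp0.1) p0.2
      rw [h, map_zero] at h1
      have h2 : ‖p0.2‖ = 1 := by simpa using hp0.2
      rw [← h1, norm_zero] at h2
      exact zero_ne_one h2
    obtain ⟨m, hm⟩ : ∃ m, m = q (χ.symm p0.1) (Ds χ p0.1 p0.2) := ⟨_, rfl⟩
    obtain ⟨m', hm'⟩ : ∃ m', m' = q (χ.symm p1.1) (Ds χ p1.1 p1.2) := ⟨_, rfl⟩
    rw [← hm] at hpos
    refine ⟨max m' m⁻¹, lt_max_of_lt_right (inv_pos.2 hpos), fun u hu w => ?_⟩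
    by_cases hw : w = 0
    · rw [hw, map_zero, q_zero hq, norm_zero]
      simp
    · have hwn : 0 < ‖w‖ := norm_pos_iff.2 hw
      have hw1 : ‖w‖⁻¹ • w ∈ sphere (0 : V k) 1 := by
        rw [mem_sphere, dist_zero_right, norm_smul, norm_inv, norm_norm, inv_mul_cancel₀ hwn.ne']
      have e : q (χ.symm u) (Ds χ u w) = ‖w‖ * q (χ.symm u) (Ds χ u (‖w‖⁻¹ • w)) := by
        have h1 := hq.smul (χ.symm u) ‖w‖ (Ds χ u (‖w‖⁻¹ • w))
        rw [abs_of_pos hwn, ← map_smul, smul_smul, mul_inv_cancel₀ hwn.ne', one_smul] at h1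
        exact h1
      have h1 : m ≤ q (χ.symm u) (Ds χ u (‖w‖⁻¹ • w)) := by
        rw [hm]; exact hmin (show (u, ‖w‖⁻¹ • w) ∈ _ from ⟨hu, hw1⟩)
      have h2 : q (χ.symm u) (Ds χ u (‖w‖⁻¹ • w)) ≤ m' := by
        rw [hm']; exact hmax (show (u, ‖w‖⁻¹ • w) ∈ _ from ⟨hu, hw1⟩)
      obtain ⟨y, hy⟩ : ∃ y, y = q (χ.symm u) (Ds χ u (‖w‖⁻¹ • w)) := ⟨_, rfl⟩
      rw [e, ← hy]
      rw [← hy] at h1 h2
      constructor
      · rw [mul_comm]
        exact mul_le_mul_of_nonneg_right (h2.trans (le_max_left _ _)) hwn.le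
      · have h3 : 1 ≤ max m' m⁻¹ * y := by
          calc (1 : ℝ) = m⁻¹ * m := (inv_mul_cancel₀ hpos.ne').symm
            _ ≤ max m' m⁻¹ * y := mul_le_mul (le_max_right _ _) h1 hpos.le
                ((inv_pos.2 hpos).le.trans (le_max_right _ _))
        calc ‖w‖ = ‖w‖ * 1 := (mul_one _).symm
          _ ≤ ‖w‖ * (max m' m⁻¹ * y) := mul_le_mul_of_nonneg_left h3 hwn.le
          _ = max m' m⁻¹ * (‖w‖ * y) := by ring

/-- the derivative of a transplanted affine map -/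
theorem dv_tr (hχ : χ ∈ IsManifold.maximalAtlas (𝓡 k) ∞ M) {j : ℕ} {F : V j × V k → V k}
    {a : V j} {b : V k} {L : V k →L[ℝ] V k}
    (hF : ∀ v, ‖v‖ < 1 / 4 → F (a, v) = v + (b + L v)) {x x' : M} (hx : x ∈ χ.source)
    (hx' : x' ∈ χ.source) (hn : ‖χ x‖ < 1 / 4) (hxx : χ x + (b + L (χ x)) = χ x') :
    tr χ F a x = x' ∧ ∀ v, Df χ x' (dv k (tr χ F a) x (Ds χ (χ x) v)) = v + L v := by
  have hval : tr χ F a x = x' := by
    rw [tr_source hx, hF _ hn, hxx, χ.left_inv hx']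
  refine ⟨hval, fun v => ?_⟩
  have hA : HasFDerivAt (fun v : V k => v + (b + L v)) (ContinuousLinearMap.id ℝ (V k) + L)
      (χ x) :=
    (hasFDerivAt_id (χ x)).add ((L.hasFDerivAt).const_add b)
  have hA' : HasMFDerivAt (𝓡 k) (𝓡 k) (fun v : V k => v + (b + L v)) (χ x)
      (ContinuousLinearMap.id ℝ (V k) + L) := hA.hasMFDerivAt
  have h1 := hA'.comp x (hasDf hχ hx)
  have h2 : HasMFDerivAt (𝓡 k) (𝓡 k) χ.symm (((fun v : V k => v + (b + L v)) ∘ χ) x)
      (Ds χ (χ x')) := by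
    have h3 := hasDs hχ (χ.map_source hx')
    have h4 : ((fun v : V k => v + (b + L v)) ∘ χ) x = χ x' := hxx
    rw [h4]
    exact h3
  have h5 := h2.comp x h1
  have h6 : HasMFDerivAt (𝓡 k) (𝓡 k) (tr χ F a) x _ := h5.congr_of_eventuallyEq (by
    have hc : ContinuousAt (fun y => ‖χ y‖) x :=
      ((χ.continuousOn x hx).continuousAt (χ.open_source.mem_nhds hx)).norm
    filter_upwards [χ.open_source.mem_nhds hx, hc.eventually_lt continuousAt_const hn] with y hy hyn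
    show tr χ F a y = χ.symm (χ y + (b + L (χ y)))
    rw [tr_source hy, hF _ hyn])
  have h7 : dv k (tr χ F a) x (Ds χ (χ x) v) =
      Ds χ (χ x') ((ContinuousLinearMap.id ℝ (V k) + L) (Df χ x (Ds χ (χ x) v))) := by
    rw [dv, h6.mfderiv]
    rfl
  rw [h7]
  have h8 : Df χ x (Ds χ (χ x) v) = v := by
    have h := Df_Ds hχ (χ.map_source hx) v
    rwa [χ.left_inv hx] at h
  have h9 := Df_Ds hχ (χ.map_source hx') ((ContinuousLinearMap.id ℝ (V k) + L) v)
  rw [χ.left_inv hx'] at h9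
  rw [h8, h9]
  rfl

end chart

/-- finite colourings with small cells -/
theorem colour {X : Type*} [PseudoMetricSpace X] {S : Set X} (hS : TotallyBounded S) {ρ : ℝ}
    (hρ : 0 < ρ) : ∃ (Q : ℕ) (col : X → Fin (Q + 1)), ∀ x ∈ S, ∀ y ∈ S, col x = col y →
      dist x y < ρ := by
  classical
  obtain ⟨t, htf, ht⟩ := Metric.totallyBounded_iff.1 hS (ρ / 2) (by positivity)
  have hch : ∀ x : X, ∃ y : Option t, x ∈ S → ∃ z : t, y = some z ∧ dist x z < ρ / 2 := by
    intro x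
    by_cases hx : x ∈ S
    · obtain ⟨z, hz, hxz⟩ := mem_iUnion₂.1 (ht hx)
      exact ⟨some ⟨z, hz⟩, fun _ => ⟨⟨z, hz⟩, rfl, hxz⟩⟩
    · exact ⟨none, fun h => absurd h hx⟩
  choose g hg using hch
  have : Fintype t := htf.fintype
  have hcard : Fintype.card (Option t) = Fintype.card t + 1 := Fintype.card_option
  refine ⟨Fintype.card t, fun x => Fintype.equivFinOfCardEq hcard (g x), fun x hx y hy h => ?_⟩
  have h1 : g x = g y := (Fintype.equivFinOfCardEq hcard).injective h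
  obtain ⟨z, hz, hxz⟩ := hg x hx
  obtain ⟨z', hz', hyz⟩ := hg y hy
  rw [hz, hz'] at h1
  have h2 : z = z' := Option.some_injective _ h1
  subst h2
  calc dist x y ≤ dist x z + dist y z := dist_triangle_right _ _ _
    _ < ρ := by linarith

theorem iso_norm_le {k : ℕ} {E : V k →L[ℝ] V k} (hE : Iso E) : ‖E‖ ≤ 1 :=
  ContinuousLinearMap.opNorm_le_bound _ zero_le_one fun v => by rw [hE v, one_mul]

/-- the inverse of an isometry -/
theorem iso_inv {k : ℕ} {E : V k →L[ℝ] V k} (hE : Iso E) :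
    ∃ I : V k →L[ℝ] V k, (∀ v, I (E v) = v) ∧ (∀ v, E (I v) = v) ∧ ∀ v, ‖I v‖ = ‖v‖ := by
  let e : V k ≃ₗᵢ[ℝ] V k := (⟨E.toLinearMap, hE⟩ : V k →ₗᵢ[ℝ] V k).toLinearIsometryEquiv rfl
  have he : ∀ v, e v = E v := fun v => rfl
  refine ⟨(e.symm.toContinuousLinearEquiv : V k →L[ℝ] V k), fun v => ?_, fun v => ?_, fun v => ?_⟩
  · show e.symm (E v) = v
    rw [← he, e.symm_apply_apply]
  · show E (e.symm v) = v
    rw [← he, e.apply_symm_apply]
  · exact e.symm.norm_map v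

theorem exp_sub_le {t ε : ℝ} (ht : |t| ≤ ε) : |Real.exp t - 1| ≤ Real.exp ε - 1 := by
  obtain ⟨h1, h2⟩ := abs_le.1 ht
  have hε : 0 ≤ ε := (abs_nonneg t).trans ht
  rw [abs_le]
  constructor
  · have h3 : Real.exp (-ε) ≤ Real.exp t := Real.exp_le_exp.2 h1
    have h4 : 2 ≤ Real.exp ε + Real.exp (-ε) := by
      have := Real.add_one_le_exp ε
      have := Real.add_one_le_exp (-ε)
      linarith
    linarith
  · have h3 : Real.exp t ≤ Real.exp ε := Real.exp_le_exp.2 h2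
    linarith

/-- the linear part of the jump -/
theorem jumpL {k : ℕ} {E E' : V k →L[ℝ] V k} (hE : Iso E) (hE' : Iso E') {t ε μ : ℝ}
    (ht : |t| ≤ ε) (hε : Real.exp ε - 1 ≤ μ) (hEE : ‖E' - E‖ ≤ μ) :
    ∃ L : V k →L[ℝ] V k, ‖L‖ ≤ 2 * μ ∧ ∀ v, E v + L (E v) = Real.exp t • E' v := by
  obtain ⟨I, hI1, hI2, hI3⟩ := iso_inv hE
  refine ⟨Real.exp t • (E'.comp I) - ContinuousLinearMap.id ℝ (V k), ?_, fun v => ?_⟩
  · apply ContinuousLinearMap.opNorm_le_bound
    · have : 0 ≤ ‖E' - E‖ := norm_nonneg _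
      linarith
    · intro w
      have e : (Real.exp t • (E'.comp I) - ContinuousLinearMap.id ℝ (V k)) w =
          (Real.exp t - 1) • E' (I w) + (E' - E) (I w) := by
        show Real.exp t • E' (I w) - w = (Real.exp t - 1) • E' (I w) + (E' (I w) - E (I w))
        rw [hI2, sub_smul, one_smul]
        abel
      rw [e]
      calc ‖(Real.exp t - 1) • E' (I w) + (E' - E) (I w)‖
          ≤ ‖(Real.exp t - 1) • E' (I w)‖ + ‖(E' - E) (I w)‖ := norm_add_le _ _
        _ ≤ μ * ‖w‖ + μ * ‖w‖ := by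
            apply add_le_add
            · rw [norm_smul, hE' (I w), hI3, Real.norm_eq_abs]
              exact mul_le_mul_of_nonneg_right ((exp_sub_le ht).trans hε) (norm_nonneg _)
            · refine ((E' - E).le_opNorm _).trans ?_
              rw [hI3]
              exact mul_le_mul_of_nonneg_right hEE (norm_nonneg _)
        _ = 2 * μ * ‖w‖ := by ring
  · show E v + (Real.exp t • E' (I (E v)) - E v) = Real.exp t • E' v
    rw [hI1]
    abel

theorem t_JET : S_AFF → S_JET.{v} := by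
  intro hAFF k M _ _ _ _ _
  classical
  obtain ⟨j, F, F', κ, C0, hκ, hC0, hF, haff⟩ := hAFF k
  -- finitely many charts
  have hz : ∀ z : M, ∃ χ : OpenPartialHomeomorph M (V k), GoodChart k M χ z := by
    intro z
    obtain ⟨χ, h, -⟩ := small_chart (n := k) z univ isOpen_univ (mem_univ z)
    exact ⟨χ, h⟩
  choose X hX using hz
  have hopen : ∀ z : M, IsOpen ((X z).source ∩ X z ⁻¹' ball (0 : V k) (1 / 8)) := fun z =>
    (X z).isOpen_inter_preimage isOpen_ball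
  obtain ⟨T, hT⟩ := isCompact_univ.elim_finite_subcover
    (fun z : M => (X z).source ∩ X z ⁻¹' ball (0 : V k) (1 / 8)) hopen (fun z _ =>
      mem_iUnion.2 ⟨z, (hX z).src, by
        rw [mem_preimage, (hX z).zero]; exact mem_ball_self (by norm_num)⟩)
  have hcov : ∀ x : M, ∃ c : Fin T.card, x ∈ (X (T.equivFin.symm c : M)).source ∧
      ‖X (T.equivFin.symm c : M) x‖ < 1 / 8 := by
    intro x
    obtain ⟨z, hzT, hxz⟩ := mem_iUnion₂.1 (hT (mem_univ x))
    refine ⟨T.equivFin ⟨z, hzT⟩, ?_⟩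
    rw [Equiv.symm_apply_apply]
    exact ⟨hxz.1, by simpa using hxz.2⟩
  obtain ⟨Y, hY⟩ : ∃ Y : Fin T.card → OpenPartialHomeomorph M (V k),
      Y = fun c => X (T.equivFin.symm c : M) := ⟨_, rfl⟩
  have hYg : ∀ c, ∃ z, GoodChart k M (Y c) z := fun c => by rw [hY]; exact ⟨_, hX _⟩
  have hcov' : ∀ x : M, ∃ c : Fin T.card, x ∈ (Y c).source ∧ ‖Y c x‖ < 1 / 8 := by
    rw [hY]; exact hcov
  clear hcov hY hT hopen hX
  choose zz hzz using hYg
  choose idx hidx using hcov'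
  have hat : ∀ c, Y c ∈ IsManifold.maximalAtlas (𝓡 k) ∞ M := fun c => (hzz c).mem
  refine ⟨fun x => th (hat (idx x)) (hidx x).1, T.card, j, fun c => tr (Y c) F,
    fun c => tr (Y c) F', fun c => ?_, fun q hq => ?_, fun δ hδ => ?_⟩
  · obtain ⟨h1, h2, h3, h4⟩ := Pool.Agent.Y504.CO.P2.tr_diff (hzz c) hF
    refine ⟨h1, h2, h3, h4, fun y => ?_⟩
    show tr (Y c) F 0 y = y
    by_cases hy : y ∈ (Y c).source
    · rw [tr_source hy, hF.zero, (Y c).left_inv hy]
    · exact tr_not_source hy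
  · have h1 : ∀ c, ∃ K : ℝ, 0 < K ∧ ∀ u ∈ closedBall (0 : V k) (1 / 8), ∀ w : V k,
        q ((Y c).symm u) (Ds (Y c) u w) ≤ K * ‖w‖ ∧ ‖w‖ ≤ K * q ((Y c).symm u) (Ds (Y c) u w) :=
      fun c => comp_chart (hat c) (hzz c).ball hq
    choose K hK0 hK using h1
    have hKs : ∀ c, K c ≤ 1 + ∑ c, K c := fun c => by
      have := Finset.single_le_sum (f := K) (fun i _ => (hK0 i).le) (Finset.mem_univ c)
      linarith
    have hKp : 0 < 1 + ∑ c, K c := by
      have : 0 ≤ ∑ c, K c := Finset.sum_nonneg fun i _ => (hK0 i).le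
      linarith
    refine ⟨1 + ∑ c, K c, hKp, fun x v => ?_⟩
    have hu : Y (idx x) x ∈ closedBall (0 : V k) (1 / 8) := by
      rw [mem_closedBall, dist_zero_right]; exact (hidx x).2.le
    obtain ⟨h2, h3⟩ := hK (idx x) _ hu (Df (Y (idx x)) x v)
    rw [Ds_Df (hat _) (hidx x).1, (Y (idx x)).left_inv (hidx x).1] at h2 h3
    have hqn : 0 ≤ q x v := by
      by_contra hcon
      have h4 : 0 ≤ ‖Df (Y (idx x)) x v‖ := norm_nonneg _
      have h5 := mul_neg_of_pos_of_neg (hK0 (idx x)) (not_le.1 hcon)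
      linarith
    rw [th_apply]
    exact ⟨h2.trans (mul_le_mul_of_nonneg_right (hKs _) (norm_nonneg _)),
      h3.trans (mul_le_mul_of_nonneg_right (hKs _) hqn)⟩
  · -- the colours
    obtain ⟨μ, hμ⟩ : ∃ μ : ℝ, μ = min (κ / 4) (δ / (6 * C0)) := ⟨_, rfl⟩
    have hμ0 : 0 < μ := by rw [hμ]; exact lt_min (by positivity) (by positivity)
    have hμ1 : μ ≤ κ / 4 := by rw [hμ]; exact min_le_left _ _
    have hμ2 : μ ≤ δ / (6 * C0) := by rw [hμ]; exact min_le_right _ _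
    obtain ⟨Q1, col1, hcol1⟩ := colour (isCompact_closedBall (0 : V k) (1 / 8)).totallyBounded hμ0
    obtain ⟨Q2, col2, hcol2⟩ :=
      colour (isCompact_closedBall (0 : V k →L[ℝ] V k) 1).totallyBounded hμ0
    refine ⟨Fintype.card (Fin T.card × Fin (Q1 + 1) × Fin (Q2 + 1)), Real.log (1 + μ),
      fun x E => Fintype.equivFin (Fin T.card × Fin (Q1 + 1) × Fin (Q2 + 1))
        (idx x, col1 (Y (idx x) x), col2 E), Real.log_pos (by linarith), ?_⟩
    intro x x' E E' hE hE' hcol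
    have h1 := (Fintype.equivFin (Fin T.card × Fin (Q1 + 1) × Fin (Q2 + 1))).injective hcol
    rw [Prod.mk.injEq, Prod.mk.injEq] at h1
    obtain ⟨hi, hc1, hc2⟩ := h1
    obtain ⟨hxs, hxn⟩ := hidx x
    obtain ⟨hxs', hxn'⟩ := hidx x'
    have hθ' : ∀ v, th (hat (idx x')) (hidx x').1 v = Df (Y (idx x)) x' v := fun v => by
      rw [th_apply, hi]
    have hθs : ∀ v, (th (hat (idx x)) (hidx x).1).symm v = Ds (Y (idx x)) (Y (idx x) x) v :=
      fun v => rfl
    rw [← hi] at hxs' hxn' hc1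
    have hd1 : dist (Y (idx x) x) (Y (idx x) x') < μ := by
      apply hcol1 _ _ _ _ hc1
      · rw [mem_closedBall, dist_zero_right]; exact hxn.le
      · rw [mem_closedBall, dist_zero_right]; exact hxn'.le
    have hd2 : dist E E' < μ := by
      apply hcol2 _ _ _ _ hc2
      · rw [mem_closedBall, dist_zero_right]; exact iso_norm_le hE
      · rw [mem_closedBall, dist_zero_right]; exact iso_norm_le hE'
    refine ⟨idx x, fun t ht => ?_⟩
    obtain ⟨L, hL1, hL2⟩ := jumpL (μ := μ) hE hE' ht (by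
      rw [Real.exp_log (by linarith)]; linarith) (by
      rw [← dist_eq_norm, dist_comm]; exact hd2.le)
    obtain ⟨b, hb⟩ : ∃ b : V k, b = Y (idx x) x' - Y (idx x) x - L (Y (idx x) x) := ⟨_, rfl⟩
    have hbn : ‖b‖ ≤ 3 * μ := by
      rw [hb]
      have h3 : ‖L (Y (idx x) x)‖ ≤ 2 * μ * (1 / 8) :=
        (L.le_opNorm _).trans (mul_le_mul hL1 hxn.le (norm_nonneg _) (by positivity))
      have h4 : ‖Y (idx x) x' - Y (idx x) x‖ < μ := by
        rw [← dist_eq_norm, dist_comm]; exact hd1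
      calc ‖Y (idx x) x' - Y (idx x) x - L (Y (idx x) x)‖
          ≤ ‖Y (idx x) x' - Y (idx x) x‖ + ‖L (Y (idx x) x)‖ := norm_sub_le _ _
        _ ≤ 3 * μ := by linarith
    obtain ⟨a, ha1, ha2⟩ := haff b L (by linarith) (by linarith)
    have haδ : ‖a‖ < δ := by
      rw [le_div_iff₀ (by positivity)] at hμ2
      have h3 : C0 * (‖b‖ + ‖L‖) ≤ C0 * (5 * μ) :=
        mul_le_mul_of_nonneg_left (by linarith) hC0.le
      nlinarith
    obtain ⟨h5, h6⟩ := dv_tr (hat (idx x)) ha2 hxs hxs' (by linarith) (by rw [hb]; abel)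
    refine ⟨a, haδ, h5, fun v => ?_⟩
    rw [hθs, hθ', h6, hL2]

end Run7.h781.PR
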